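import Mathlib

/-!
Matrices of full column rank: `X = W * Y * R` with `W` unitary, `R` invertible.
-/

set_option autoImplicit false

open scoped Matrix
open Module

namespace Pool.Agent.X268.RS

variable {K : Type} [RCLike K] {n l : ℕ}

/-- the column space in Euclidean space -/
noncomputable def rng (X : Matrix (Fin n) (Fin l) K) : Submodule K (EuclideanSpace K (Fin n)) :=
  LinearMap.range (Matrix.toLpLin 2 2 X)

lemma finrank_rng (X : Matrix (Fin n) (Fin l) K) : finrank K (rng X) = X.rank := by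
  have h : rng X = (LinearMap.range X.mulVecLin).map
      ((WithLp.linearEquiv 2 K (Fin n → K)).symm : (Fin n → K) →ₗ[K] EuclideanSpace K (Fin n)) := by
    ext x
    simp only [rng, LinearMap.mem_range, Submodule.mem_map]
    constructor
    · rintro ⟨y, rfl⟩
      exact ⟨_, ⟨WithLp.ofLp y, rfl⟩, rfl⟩
    · rintro ⟨_, ⟨y, rfl⟩, rfl⟩
      exact ⟨WithLp.toLp 2 y, rfl⟩
  rw [h]
  exact LinearEquiv.finrank_map_eq (WithLp.linearEquiv 2 K (Fin n → K)).symm _

theorem exists_WR (X Y : Matrix (Fin n) (Fin l) K) (hX : X.rank = l) (hY : Y.rank = l) :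
    ∃ W ∈ Matrix.unitaryGroup (Fin n) K, ∃ R : Matrix (Fin l) (Fin l) K, IsUnit R ∧ X = W * Y * R := by
  have hdim : finrank K (rng X) = finrank K (rng Y) := by rw [finrank_rng, finrank_rng, hX, hY]
  let e : rng Y ≃ₗᵢ[K] rng X := (stdOrthonormalBasis K (rng Y)).equiv (stdOrthonormalBasis K (rng X))
    (finCongr hdim.symm)
  let L : rng Y →ₗᵢ[K] EuclideanSpace K (Fin n) := (rng X).subtypeₗᵢ.comp e.toLinearIsometry
  let L' : EuclideanSpace K (Fin n) →ₗᵢ[K] EuclideanSpace K (Fin n) := L.extend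
  let W : Matrix (Fin n) (Fin n) K := (Matrix.toLpLin 2 2).symm L'.toLinearMap
  have hW1 : Matrix.toLpLin 2 2 W = L'.toLinearMap := LinearEquiv.apply_symm_apply _ _
  have hW2 : ∀ v : Fin n → K, W *ᵥ v = WithLp.ofLp (L' (WithLp.toLp 2 v)) := by
    intro v
    have := LinearMap.congr_fun hW1 (WithLp.toLp 2 v)
    have h2 := congrArg WithLp.ofLp this
    exact h2
  have hWu : W ∈ Matrix.unitaryGroup (Fin n) K := by
    rw [Matrix.mem_unitaryGroup_iff']
    ext i j
    have h1 : ∀ j i, W i j = (L' (WithLp.toLp 2 (Pi.single j 1))) i := by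
      intro j i
      have := congrFun (hW2 (Pi.single j 1)) i
      rw [← this]
      simp
    have h2 : (star W * W) i j =
        inner K (L' (WithLp.toLp 2 (Pi.single i 1))) (L' (WithLp.toLp 2 (Pi.single j 1))) := by
      rw [Matrix.mul_apply, PiLp.inner_apply]
      refine Finset.sum_congr rfl fun k _ => ?_
      rw [Matrix.star_apply, h1, h1, RCLike.inner_apply, mul_comm]
      rfl
    rw [h2, LinearIsometry.inner_map_map, PiLp.inner_apply]
    simp only [RCLike.inner_apply]
    rw [Finset.sum_eq_single i]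
    · simp [Matrix.one_apply, Pi.single_apply]
    · intro k _ hk
      simp [Pi.single_apply, hk]
    · simp
  have hcol : ∀ j : Fin l, ∃ r : Fin l → K, X *ᵥ r = (W * Y) *ᵥ (Pi.single j 1) := by
    intro j
    have hy : WithLp.toLp 2 (Y *ᵥ (Pi.single j 1)) ∈ rng Y := ⟨WithLp.toLp 2 (Pi.single j 1), rfl⟩
    have h3 : L' (WithLp.toLp 2 (Y *ᵥ (Pi.single j 1))) ∈ rng X := by
      have := LinearIsometry.extend_apply L ⟨_, hy⟩
      have h4 : L' (WithLp.toLp 2 (Y *ᵥ (Pi.single j 1))) = L ⟨_, hy⟩ := this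
      rw [h4]
      exact (e ⟨_, hy⟩).2
    obtain ⟨r, hr⟩ := h3
    refine ⟨WithLp.ofLp r, ?_⟩
    have h5 := congrArg WithLp.ofLp hr
    rw [← Matrix.mulVec_mulVec, hW2]
    exact h5
  choose r hr using hcol
  let R : Matrix (Fin l) (Fin l) K := Matrix.of fun i j => r j i
  have hXR : X * R = W * Y := by
    ext i j
    have := congrFun (hr j) i
    rw [Matrix.mulVec_single_one] at this
    simp only [Matrix.col_apply] at this
    rw [← this]
    simp [Matrix.mul_apply, Matrix.mulVec, dotProduct, R]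
  have hWd : IsUnit W.det := by
    have : IsUnit W := ⟨Unitary.toUnits ⟨W, hWu⟩, rfl⟩
    exact (Matrix.isUnit_iff_isUnit_det W).1 this
  have hr1 : (X * R).rank = l := by
    rw [hXR, Matrix.rank_mul_eq_right_of_isUnit_det W Y hWd, hY]
  have hr2 : l ≤ R.rank := hr1.symm.le.trans (Matrix.rank_mul_le_right X R)
  have hRu : IsUnit R := by
    rw [← Matrix.mulVec_surjective_iff_isUnit]
    have h6 : LinearMap.range R.mulVecLin = ⊤ := by
      apply Submodule.eq_top_of_finrank_eq
      have h7 : finrank K (LinearMap.range R.mulVecLin) = R.rank := rfl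
      have h8 := Matrix.rank_le_width R
      rw [h7]
      simp
      omega
    exact LinearMap.range_eq_top.1 h6
  have hRd := (Matrix.isUnit_iff_isUnit_det R).1 hRu
  refine ⟨W, hWu, R⁻¹, ?_, ?_⟩
  · exact (Matrix.isUnit_nonsing_inv_iff).2 hRu
  · rw [← hXR, Matrix.mul_assoc, Matrix.mul_nonsing_inv R hRd, Matrix.mul_one]

end Pool.Agent.X268.RS
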